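import Mathlib

/-!
# The Albert algebra over a field and Rota-Baxter operators of weight zero

* `SplitOctonion F` : the split octonion (Cayley) algebra over `F`, realised by Zorn's vector
  matrices `(a, u; v, b)` with `a b : F` and `u v : F³`.
* `albert F` : the space of `3 × 3` Hermitian matrices over `SplitOctonion F`.
* `jordanMul` : the Jordan product `X ∘ Y = (XY + YX)/2` on `albert F`.
* `IsRotaBaxter` : Rota-Baxter operators of weight `0` for this product.
-/

open Matrix

namespace Pool.Agent.Lib.MP_d38294_al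

/-- Zorn's vector matrices `(a, u; v, b)`, `a b : F`, `u v : F³`. -/
def SplitOctonion (F : Type*) : Type _ := F × (Fin 3 → F) × (Fin 3 → F) × F

namespace SplitOctonion

section basic
variable {F : Type*}

/-- upper left entry of a vector matrix -/
def a (x : SplitOctonion F) : F := x.1
/-- upper right (vector) entry of a vector matrix -/
def u (x : SplitOctonion F) : Fin 3 → F := x.2.1
/-- lower left (vector) entry of a vector matrix -/
def v (x : SplitOctonion F) : Fin 3 → F := x.2.2.1
/-- lower right entry of a vector matrix -/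
def b (x : SplitOctonion F) : F := x.2.2.2
/-- the vector matrix `(a, u; v, b)` -/
def mk (a : F) (u v : Fin 3 → F) (b : F) : SplitOctonion F := (a, u, v, b)

@[ext] theorem ext' {x y : SplitOctonion F} (ha : x.a = y.a) (hu : x.u = y.u) (hv : x.v = y.v)
    (hb : x.b = y.b) : x = y :=
  Prod.ext ha (Prod.ext hu (Prod.ext hv hb))

@[simp] theorem mk_a (a : F) (u v : Fin 3 → F) (b : F) : (mk a u v b).a = a := rfl
@[simp] theorem mk_u (a : F) (u v : Fin 3 → F) (b : F) : (mk a u v b).u = u := rfl
@[simp] theorem mk_v (a : F) (u v : Fin 3 → F) (b : F) : (mk a u v b).v = v := rfl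
@[simp] theorem mk_b (a : F) (u v : Fin 3 → F) (b : F) : (mk a u v b).b = b := rfl

end basic

variable {F : Type*} [Field F]

/-- the dot product on `F³` -/
def dot (x y : Fin 3 → F) : F := x 0 * y 0 + x 1 * y 1 + x 2 * y 2

/-- the cross product on `F³` -/
def cross (x y : Fin 3 → F) : Fin 3 → F :=
  ![x 1 * y 2 - x 2 * y 1, x 2 * y 0 - x 0 * y 2, x 0 * y 1 - x 1 * y 0]

/-- vector matrices are added entrywise -/
instance instAddCommGroup : AddCommGroup (SplitOctonion F) :=
  (Prod.instAddCommGroup : AddCommGroup (F × (Fin 3 → F) × (Fin 3 → F) × F))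

/-- scalars act entrywise -/
instance instModule : Module F (SplitOctonion F) :=
  (Prod.instModule : Module F (F × (Fin 3 → F) × (Fin 3 → F) × F))

/-- Zorn's product
`(a, u; v, b)(a', u'; v', b') = (aa' + u·v', au' + b'u - v×v'; a'v + bv' + u×u', bb' + v·u')`. -/
instance instMul : Mul (SplitOctonion F) :=
  ⟨fun x y => mk (x.a * y.a + dot x.u y.v)
    (fun i => x.a * y.u i + y.b * x.u i - cross x.v y.v i)
    (fun i => y.a * x.v i + x.b * y.v i + cross x.u y.u i)
    (x.b * y.b + dot x.v y.u)⟩

/-- the identity `(1, 0; 0, 1)` -/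
instance instOne : One (SplitOctonion F) := ⟨mk 1 (fun _ => 0) (fun _ => 0) 1⟩

/-- the standard involution (conjugation) `(a, u; v, b) ↦ (b, -u; -v, a)` -/
instance instStar : Star (SplitOctonion F) :=
  ⟨fun x => mk x.b (fun i => -x.u i) (fun i => -x.v i) x.a⟩

section lemmas
variable (x y : SplitOctonion F) (c : F)

@[simp] theorem zero_a : (0 : SplitOctonion F).a = 0 := rfl
@[simp] theorem zero_u : (0 : SplitOctonion F).u = 0 := rfl
@[simp] theorem zero_v : (0 : SplitOctonion F).v = 0 := rfl
@[simp] theorem zero_b : (0 : SplitOctonion F).b = 0 := rfl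
@[simp] theorem one_a : (1 : SplitOctonion F).a = 1 := rfl
@[simp] theorem one_u : (1 : SplitOctonion F).u = 0 := rfl
@[simp] theorem one_v : (1 : SplitOctonion F).v = 0 := rfl
@[simp] theorem one_b : (1 : SplitOctonion F).b = 1 := rfl
@[simp] theorem add_a : (x + y).a = x.a + y.a := rfl
@[simp] theorem add_u : (x + y).u = x.u + y.u := rfl
@[simp] theorem add_v : (x + y).v = x.v + y.v := rfl
@[simp] theorem add_b : (x + y).b = x.b + y.b := rfl
@[simp] theorem smul_a : (c • x).a = c * x.a := rfl
@[simp] theorem smul_u : (c • x).u = c • x.u := rfl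
@[simp] theorem smul_v : (c • x).v = c • x.v := rfl
@[simp] theorem smul_b : (c • x).b = c * x.b := rfl
@[simp] theorem star_a : (star x).a = x.b := rfl
@[simp] theorem star_u : (star x).u = -x.u := rfl
@[simp] theorem star_v : (star x).v = -x.v := rfl
@[simp] theorem star_b : (star x).b = x.a := rfl

theorem mul_a : (x * y).a = x.a * y.a + (x.u 0 * y.v 0 + x.u 1 * y.v 1 + x.u 2 * y.v 2) := rfl
theorem mul_b : (x * y).b = x.b * y.b + (x.v 0 * y.u 0 + x.v 1 * y.u 1 + x.v 2 * y.u 2) := rfl
theorem mul_u : (x * y).u = ![x.a * y.u 0 + y.b * x.u 0 - (x.v 1 * y.v 2 - x.v 2 * y.v 1),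
    x.a * y.u 1 + y.b * x.u 1 - (x.v 2 * y.v 0 - x.v 0 * y.v 2),
    x.a * y.u 2 + y.b * x.u 2 - (x.v 0 * y.v 1 - x.v 1 * y.v 0)] := by
  funext i
  fin_cases i <;> rfl
theorem mul_v : (x * y).v = ![y.a * x.v 0 + x.b * y.v 0 + (x.u 1 * y.u 2 - x.u 2 * y.u 1),
    y.a * x.v 1 + x.b * y.v 1 + (x.u 2 * y.u 0 - x.u 0 * y.u 2),
    y.a * x.v 2 + x.b * y.v 2 + (x.u 0 * y.u 1 - x.u 1 * y.u 0)] := by
  funext i
  fin_cases i <;> rfl

theorem ostar_add : star (x + y) = star x + star y := by
  ext <;> simp [add_comm]

theorem ostar_smul : star (c • x) = c • star x := by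
  ext <;> simp

theorem ostar_star : star (star x) = x := by
  ext <;> simp

theorem ostar_zero : star (0 : SplitOctonion F) = 0 := by
  ext <;> simp

theorem ostar_one : star (1 : SplitOctonion F) = 1 := by
  ext <;> simp

theorem ostar_mul : star (x * y) = star y * star x := by
  ext i
  · simp [mul_a, mul_b]; ring
  · fin_cases i <;> simp [mul_u] <;> ring
  · fin_cases i <;> simp [mul_v] <;> ring
  · simp [mul_a, mul_b]; ring

/-- Sanity check: the quadratic form `n(a, u; v, b) = ab - u·v` permits composition. -/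
theorem norm_mul : (x * y).a * (x * y).b - dot (x * y).u (x * y).v =
    (x.a * x.b - dot x.u x.v) * (y.a * y.b - dot y.u y.v) := by
  simp only [dot, mul_a, mul_b, mul_u, mul_v]
  simp
  ring

end lemmas

end SplitOctonion

variable (F : Type*) [Field F]

open SplitOctonion

/-- The space `H₃(O)` of Hermitian `3 × 3` matrices over the split octonion algebra `O`. -/
def albert : Submodule F (Matrix (Fin 3) (Fin 3) (SplitOctonion F)) where
  carrier := {X | Xᴴ = X}
  zero_mem' := Matrix.ext fun i j => by
    simp only [conjTranspose_apply, Matrix.zero_apply, ostar_zero]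
  add_mem' := by
    intro X Y hX hY
    have hX' : ∀ i j, star (X j i) = X i j := fun i j => congrFun (congrFun hX i) j
    have hY' : ∀ i j, star (Y j i) = Y i j := fun i j => congrFun (congrFun hY i) j
    exact Matrix.ext fun i j => by
      simp only [conjTranspose_apply, Matrix.add_apply, ostar_add, hX', hY']
  smul_mem' := by
    intro c X hX
    have hX' : ∀ i j, star (X j i) = X i j := fun i j => congrFun (congrFun hX i) j
    exact Matrix.ext fun i j => by
      simp only [conjTranspose_apply, Matrix.smul_apply, ostar_smul, hX']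

variable {F}

theorem mem_albert {X : Matrix (Fin 3) (Fin 3) (SplitOctonion F)} :
    X ∈ albert F ↔ ∀ i j, star (X j i) = X i j :=
  ⟨fun h i j => congrFun (congrFun h i) j, fun h => Matrix.ext fun i j => by
    simp only [conjTranspose_apply, h]⟩

variable (F) in
/-- The Albert algebra `H₃(O)` (as a vector space). -/
def Albert : Type _ := albert F

/-- vector space structure of `H₃(O)` -/
instance instAddCommGroupAlbert : AddCommGroup (Albert F) := (albert F).addCommGroup

/-- vector space structure of `H₃(O)` -/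
instance instModuleAlbert : Module F (Albert F) := (albert F).module

/-- the matrix underlying an element of `H₃(O)` -/
def Albert.mat (X : Albert F) : Matrix (Fin 3) (Fin 3) (SplitOctonion F) := X.1

/-- a Hermitian matrix as an element of `H₃(O)` -/
def Albert.ofMat (X : Matrix (Fin 3) (Fin 3) (SplitOctonion F)) (h : Xᴴ = X) : Albert F := ⟨X, h⟩

theorem jordan_herm (X Y : Albert F) :
    ((1 / 2 : F) • (X.mat * Y.mat + Y.mat * X.mat))ᴴ =
      (1 / 2 : F) • (X.mat * Y.mat + Y.mat * X.mat) := by
  have hX : ∀ i j, star (X.mat j i) = X.mat i j := mem_albert.mp X.2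
  have hY : ∀ i j, star (Y.mat j i) = Y.mat i j := mem_albert.mp Y.2
  refine Matrix.ext fun i j => ?_
  simp only [conjTranspose_apply, Matrix.smul_apply, Matrix.add_apply, Matrix.mul_apply,
    Fin.sum_univ_three, ostar_smul, ostar_add, ostar_mul, hX, hY]
  congr 1
  abel

/-- The Jordan product `X ∘ Y = (XY + YX)/2` on `H₃(O)`. -/
def jordanMul (X Y : Albert F) : Albert F :=
  Albert.ofMat ((1 / 2 : F) • (X.mat * Y.mat + Y.mat * X.mat)) (jordan_herm X Y)

/-- Rota-Baxter operators of weight `0` on the Albert algebra: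
`R(X) ∘ R(Y) = R(R(X) ∘ Y + X ∘ R(Y))`. -/
def IsRotaBaxter (R : Module.End F (Albert F)) : Prop :=
  ∀ X Y : Albert F, jordanMul (R X) (R Y) = R (jordanMul (R X) Y + jordanMul X (R Y))

end Pool.Agent.Lib.MP_d38294_al
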