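import Mathlib
import Pool.Agent.Lib.MP_d38294_al.Defs

section

open Matrix

namespace Pool.Agent.Lib.MP_d38294_al

open SplitOctonion

variable {F : Type*} [Field F]

omit [Field F] in
theorem oct_ext {x y : SplitOctonion F} (ha : x.a = y.a) (hu0 : x.u 0 = y.u 0)
    (hu1 : x.u 1 = y.u 1) (hu2 : x.u 2 = y.u 2) (hv0 : x.v 0 = y.v 0) (hv1 : x.v 1 = y.v 1)
    (hv2 : x.v 2 = y.v 2) (hb : x.b = y.b) : x = y := by
  refine ext' ha ?_ ?_ hb
  · funext i; fin_cases i <;> assumption
  · funext i; fin_cases i <;> assumption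

section coords
variable (x y : SplitOctonion F) (c : F)

theorem mul_u0 : (x * y).u 0 = x.a * y.u 0 + y.b * x.u 0 - (x.v 1 * y.v 2 - x.v 2 * y.v 1) := by
  rw [mul_u]; rfl
theorem mul_u1 : (x * y).u 1 = x.a * y.u 1 + y.b * x.u 1 - (x.v 2 * y.v 0 - x.v 0 * y.v 2) := by
  rw [mul_u]; rfl
theorem mul_u2 : (x * y).u 2 = x.a * y.u 2 + y.b * x.u 2 - (x.v 0 * y.v 1 - x.v 1 * y.v 0) := by
  rw [mul_u]; rfl
theorem mul_v0 : (x * y).v 0 = y.a * x.v 0 + x.b * y.v 0 + (x.u 1 * y.u 2 - x.u 2 * y.u 1) := by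
  rw [mul_v]; rfl
theorem mul_v1 : (x * y).v 1 = y.a * x.v 1 + x.b * y.v 1 + (x.u 2 * y.u 0 - x.u 0 * y.u 2) := by
  rw [mul_v]; rfl
theorem mul_v2 : (x * y).v 2 = y.a * x.v 2 + x.b * y.v 2 + (x.u 0 * y.u 1 - x.u 1 * y.u 0) := by
  rw [mul_v]; rfl
theorem add_ui (i : Fin 3) : (x + y).u i = x.u i + y.u i := rfl
theorem add_vi (i : Fin 3) : (x + y).v i = x.v i + y.v i := rfl
theorem smul_ui (i : Fin 3) : (c • x).u i = c * x.u i := rfl
theorem smul_vi (i : Fin 3) : (c • x).v i = c * x.v i := rfl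
theorem star_ui (i : Fin 3) : (star x).u i = - x.u i := rfl
theorem star_vi (i : Fin 3) : (star x).v i = - x.v i := rfl
theorem one_ui (i : Fin 3) : (1 : SplitOctonion F).u i = 0 := rfl
theorem one_vi (i : Fin 3) : (1 : SplitOctonion F).v i = 0 := rfl
theorem zero_ui (i : Fin 3) : (0 : SplitOctonion F).u i = 0 := rfl
theorem zero_vi (i : Fin 3) : (0 : SplitOctonion F).v i = 0 := rfl

end coords

/-- coordinates on `H₃(O)` -/
def mkA (r1 r2 r3 : F) (x y z : SplitOctonion F) : albert F :=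
  ⟨!![r1 • 1, z, star y; star z, r2 • 1, x; y, star x, r3 • 1], by
    rw [mem_albert]
    intro i j
    fin_cases i <;> fin_cases j <;>
      simp [ostar_smul, ostar_one, ostar_star]⟩

theorem mkA_surj [CharZero F] (X : albert F) : ∃ r1 r2 r3 x y z, X = mkA r1 r2 r3 x y z := by
  have hX := mem_albert.mp X.2
  have hd : ∀ i, X.1 i i = (X.1 i i).a • (1 : SplitOctonion F) := by
    intro i
    have h := hX i i
    have hb : (X.1 i i).b = (X.1 i i).a := by
      have := congrArg SplitOctonion.a h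
      simpa using this
    have hu : ∀ k, (X.1 i i).u k = 0 := by
      intro k
      have := congrFun (congrArg SplitOctonion.u h) k
      simp only [star_u, Pi.neg_apply] at this
      have h2 : (2 : F) * (X.1 i i).u k = 0 := by linear_combination -this
      exact (mul_eq_zero.mp h2).resolve_left two_ne_zero
    have hv : ∀ k, (X.1 i i).v k = 0 := by
      intro k
      have := congrFun (congrArg SplitOctonion.v h) k
      simp only [star_v, Pi.neg_apply] at this
      have h2 : (2 : F) * (X.1 i i).v k = 0 := by linear_combination -this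
      exact (mul_eq_zero.mp h2).resolve_left two_ne_zero
    apply oct_ext <;> simp [hu, hv, hb]
  refine ⟨(X.1 0 0).a, (X.1 1 1).a, (X.1 2 2).a, X.1 1 2, X.1 2 0, X.1 0 1, ?_⟩
  apply Subtype.ext
  refine Matrix.ext fun i j => ?_
  fin_cases i <;> fin_cases j
  · exact hd 0
  · rfl
  · exact (hX 0 2).symm
  · exact (hX 1 0).symm
  · exact hd 1
  · rfl
  · rfl
  · exact (hX 2 1).symm
  · exact hd 2

/-- the Jordan product on the submodule `albert F` -/
def jm (X Y : albert F) : albert F := jordanMul (F := F) X Y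

/-- polar form of the octonion norm -/
def pol (x y : SplitOctonion F) : F :=
  x.a * y.b + x.b * y.a - (x.u 0 * y.v 0 + x.u 1 * y.v 1 + x.u 2 * y.v 2)
    - (x.v 0 * y.u 0 + x.v 1 * y.u 1 + x.v 2 * y.u 2)

theorem albert_ext {X Y : albert F} (h00 : X.1 0 0 = Y.1 0 0) (h11 : X.1 1 1 = Y.1 1 1)
    (h22 : X.1 2 2 = Y.1 2 2) (h12 : X.1 1 2 = Y.1 1 2) (h20 : X.1 2 0 = Y.1 2 0)
    (h01 : X.1 0 1 = Y.1 0 1) : X = Y := by
  have hX := mem_albert.mp X.2
  have hY := mem_albert.mp Y.2
  apply Subtype.ext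
  refine Matrix.ext fun i j => ?_
  fin_cases i <;> fin_cases j
  · exact h00
  · exact h01
  · exact (hX 0 2).symm.trans ((congrArg star h20).trans (hY 0 2))
  · exact (hX 1 0).symm.trans ((congrArg star h01).trans (hY 1 0))
  · exact h11
  · exact h12
  · exact h20
  · exact (hX 2 1).symm.trans ((congrArg star h12).trans (hY 2 1))
  · exact h22

theorem jordan_apply (X Y : albert F) (i j : Fin 3) :
    (jm X Y).1 i j = (1/2 : F) •
      ((X.1 i 0 * Y.1 0 j + X.1 i 1 * Y.1 1 j + X.1 i 2 * Y.1 2 j) +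
       (Y.1 i 0 * X.1 0 j + Y.1 i 1 * X.1 1 j + Y.1 i 2 * X.1 2 j)) := by
  have key : (jm X Y).1 i j =
    (1/2 : F) • ((∑ k, X.1 i k * Y.1 k j) + ∑ k, Y.1 i k * X.1 k j) := rfl
  rw [key]
  simp only [Fin.sum_univ_three]

section entries
variable (r1 r2 r3 : F) (x y z : SplitOctonion F)
@[simp] theorem mkA00 : (mkA r1 r2 r3 x y z).1 0 0 = r1 • 1 := rfl
@[simp] theorem mkA01 : (mkA r1 r2 r3 x y z).1 0 1 = z := rfl
@[simp] theorem mkA02 : (mkA r1 r2 r3 x y z).1 0 2 = star y := rfl
@[simp] theorem mkA10 : (mkA r1 r2 r3 x y z).1 1 0 = star z := rfl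
@[simp] theorem mkA11 : (mkA r1 r2 r3 x y z).1 1 1 = r2 • 1 := rfl
@[simp] theorem mkA12 : (mkA r1 r2 r3 x y z).1 1 2 = x := rfl
@[simp] theorem mkA20 : (mkA r1 r2 r3 x y z).1 2 0 = y := rfl
@[simp] theorem mkA21 : (mkA r1 r2 r3 x y z).1 2 1 = star x := rfl
@[simp] theorem mkA22 : (mkA r1 r2 r3 x y z).1 2 2 = r3 • 1 := rfl
end entries

theorem jm_mkA [CharZero F] (r1 r2 r3 s1 s2 s3 : F) (x y z x' y' z' : SplitOctonion F) :
    jm (mkA r1 r2 r3 x y z) (mkA s1 s2 s3 x' y' z') =
    mkA (r1 * s1 + (1/2) * (pol z z' + pol y y')) (r2 * s2 + (1/2) * (pol x x' + pol z z'))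
      (r3 * s3 + (1/2) * (pol y y' + pol x x'))
      ((1/2 : F) • ((r2 + r3) • x' + (s2 + s3) • x + star (y * z') + star (y' * z)))
      ((1/2 : F) • ((r3 + r1) • y' + (s3 + s1) • y + star (z * x') + star (z' * x)))
      ((1/2 : F) • ((r1 + r2) • z' + (s1 + s2) • z + star (x * y') + star (x' * y))) := by
  apply albert_ext <;> rw [jordan_apply] <;>
    simp only [mkA00, mkA01, mkA02, mkA10, mkA11, mkA12, mkA20, mkA21, mkA22] <;>
    (apply oct_ext <;>
      simp only [mul_a, mul_b, mul_u0, mul_u1, mul_u2, mul_v0, mul_v1, mul_v2, pol,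
        add_a, add_b, add_ui, add_vi, smul_a, smul_b, smul_ui, smul_vi, star_a, star_b,
        star_ui, star_vi, one_a, one_b, one_ui, one_vi] <;> ring)

theorem mkA_add (r1 r2 r3 s1 s2 s3 : F) (x y z x' y' z' : SplitOctonion F) :
    mkA r1 r2 r3 x y z + mkA s1 s2 s3 x' y' z' =
      mkA (r1 + s1) (r2 + s2) (r3 + s3) (x + x') (y + y') (z + z') := by
  apply albert_ext
  · exact (add_smul r1 s1 (1 : SplitOctonion F)).symm
  · exact (add_smul r2 s2 (1 : SplitOctonion F)).symm
  · exact (add_smul r3 s3 (1 : SplitOctonion F)).symm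
  · rfl
  · rfl
  · rfl

theorem mkA_smul (c r1 r2 r3 : F) (x y z : SplitOctonion F) :
    c • mkA r1 r2 r3 x y z =
      mkA (c * r1) (c * r2) (c * r3) (c • x) (c • y) (c • z) := by
  apply albert_ext
  · exact smul_smul c r1 (1 : SplitOctonion F)
  · exact smul_smul c r2 (1 : SplitOctonion F)
  · exact smul_smul c r3 (1 : SplitOctonion F)
  · rfl
  · rfl
  · rfl

theorem jm_comm (X Y : albert F) : jm X Y = jm Y X := by
  apply Subtype.ext
  show (1 / 2 : F) • (X.1 * Y.1 + Y.1 * X.1) = (1 / 2 : F) • (Y.1 * X.1 + X.1 * Y.1)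
  rw [add_comm]

section omul
variable (x y z : SplitOctonion F) (c : F)
theorem omul_add : x * (y + z) = x * y + x * z := by
  apply oct_ext <;>
      simp only [mul_a, mul_b, mul_u0, mul_u1, mul_u2, mul_v0, mul_v1, mul_v2,
        add_a, add_b, add_ui, add_vi] <;> ring
theorem oadd_mul : (x + y) * z = x * z + y * z := by
  apply oct_ext <;>
      simp only [mul_a, mul_b, mul_u0, mul_u1, mul_u2, mul_v0, mul_v1, mul_v2,
        add_a, add_b, add_ui, add_vi] <;> ring
theorem omul_smul : x * (c • y) = c • (x * y) := by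
  apply oct_ext <;>
      simp only [mul_a, mul_b, mul_u0, mul_u1, mul_u2, mul_v0, mul_v1, mul_v2,
        smul_a, smul_b, smul_ui, smul_vi] <;> ring
theorem osmul_mul : (c • x) * y = c • (x * y) := by
  apply oct_ext <;>
      simp only [mul_a, mul_b, mul_u0, mul_u1, mul_u2, mul_v0, mul_v1, mul_v2,
        smul_a, smul_b, smul_ui, smul_vi] <;> ring
end omul

theorem jm_add (X Y Z : albert F) :
    jm X (Y + Z) = jm X Y + jm X Z := by
  apply Subtype.ext
  refine Matrix.ext fun i j => ?_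
  have h : ∀ i j, (Y + Z).1 i j = Y.1 i j + Z.1 i j := fun _ _ => rfl
  have h' : (jm X Y + jm X Z).1 i j =
    (jm X Y).1 i j + (jm X Z).1 i j := rfl
  rw [h', jordan_apply, jordan_apply, jordan_apply]
  simp only [h, omul_add, oadd_mul]
  rw [← smul_add]
  congr 1
  abel

theorem jm_smul (c : F) (X Y : albert F) :
    jm X (c • Y) = c • jm X Y := by
  apply Subtype.ext
  refine Matrix.ext fun i j => ?_
  have h : ∀ i j, (c • Y).1 i j = c • Y.1 i j := fun _ _ => rfl
  have h' : (c • jm X Y).1 i j = c • (jm X Y).1 i j := rfl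
  rw [h', jordan_apply, jordan_apply]
  simp only [h, omul_smul, osmul_mul]
  module

/-- the Jordan product as a bilinear map -/
def mu : albert F →ₗ[F] albert F →ₗ[F] albert F :=
  LinearMap.mk₂ F jm
    (fun X Y Z => by rw [jm_comm, jm_add, jm_comm Z X, jm_comm Z Y])
    (fun c X Y => by rw [jm_comm, jm_smul, jm_comm Y X])
    jm_add jm_smul

theorem mu_apply (X Y : albert F) : mu X Y = jm X Y := rfl

/-- the trace -/
def tr : albert F →ₗ[F] F where
  toFun X := (X.1 0 0).a + (X.1 1 1).a + (X.1 2 2).a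
  map_add' X Y := by
    show ((X.1 0 0).a + (Y.1 0 0).a) + ((X.1 1 1).a + (Y.1 1 1).a) +
      ((X.1 2 2).a + (Y.1 2 2).a) = _
    ring
  map_smul' c X := by
    show c * (X.1 0 0).a + c * (X.1 1 1).a + c * (X.1 2 2).a = c * _
    ring

theorem tr_mkA (r1 r2 r3 : F) (x y z : SplitOctonion F) : tr (mkA r1 r2 r3 x y z) =
    r1 + r2 + r3 := by
  show r1 * 1 + r2 * 1 + r3 * 1 = _
  ring

/-- the unit -/
def one' : albert F := mkA 1 1 1 0 0 0

theorem mu_comm (X Y : albert F) : mu X Y = mu Y X := jm_comm X Y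

theorem mkA_congr {r1 r2 r3 s1 s2 s3 : F} {x y z x' y' z' : SplitOctonion F}
    (h1 : r1 = s1) (h2 : r2 = s2) (h3 : r3 = s3) (hx : x = x') (hy : y = y') (hz : z = z') :
    mkA r1 r2 r3 x y z = mkA s1 s2 s3 x' y' z' := by
  rw [h1, h2, h3, hx, hy, hz]

theorem mu_one [CharZero F] (X : albert F) : mu one' X = X := by
  obtain ⟨r1, r2, r3, x, y, z, rfl⟩ := mkA_surj X
  rw [mu_apply, one', jm_mkA]
  apply mkA_congr
  · simp only [pol, zero_a, zero_b, zero_ui, zero_vi]; ring
  · simp only [pol, zero_a, zero_b, zero_ui, zero_vi]; ring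
  · simp only [pol, zero_a, zero_b, zero_ui, zero_vi]; ring
  all_goals
    apply oct_ext <;>
      simp only [mul_a, mul_b, mul_u0, mul_u1, mul_u2, mul_v0, mul_v1, mul_v2,
        add_a, add_b, add_ui, add_vi, smul_a, smul_b, smul_ui, smul_vi, star_a, star_b,
        star_ui, star_vi, zero_a, zero_b, zero_ui, zero_vi] <;> ring

theorem tr_one : tr (one' : albert F) = 3 := by
  rw [one', tr_mkA]; norm_num

theorem tr_assoc [CharZero F] (X Y Z : albert F) : tr (mu (mu X Y) Z) = tr (mu X (mu Y Z)) := by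
  obtain ⟨r1, r2, r3, x, y, z, rfl⟩ := mkA_surj X
  obtain ⟨s1, s2, s3, x', y', z', rfl⟩ := mkA_surj Y
  obtain ⟨t1, t2, t3, x'', y'', z'', rfl⟩ := mkA_surj Z
  simp only [mu_apply, jm_mkA, tr_mkA]
  simp only [mul_a, mul_b, mul_u0, mul_u1, mul_u2, mul_v0, mul_v1, mul_v2, pol,
        add_a, add_b, add_ui, add_vi, smul_a, smul_b, smul_ui, smul_vi, star_a, star_b,
        star_ui, star_vi]
  ring

theorem cubic [CharZero F] (X : albert F) : ∃ n : F,
    mu X (mu X X) - tr X • mu X X + ((tr X)^2 - tr (mu X X)) • (2⁻¹ : F) • X = n • one' := by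
  obtain ⟨r1, r2, r3, x, y, z, rfl⟩ := mkA_surj X
  refine ⟨r1 * r2 * r3 - r1 * (pol x x / 2) - r2 * (pol y y / 2) - r3 * (pol z z / 2)
    + ((x * y) * z).a + ((x * y) * z).b, ?_⟩
  rw [sub_add_eq_add_sub, sub_eq_iff_eq_add]
  simp only [mu_apply, jm_mkA, tr_mkA, one', mkA_smul, mkA_add]
  apply mkA_congr
  · simp only [mul_a, mul_b, mul_u0, mul_u1, mul_u2, mul_v0, mul_v1, mul_v2, pol,
        add_a, add_b, add_ui, add_vi, smul_a, smul_b, smul_ui, smul_vi, star_a, star_b,
        star_ui, star_vi]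
    ring
  · simp only [mul_a, mul_b, mul_u0, mul_u1, mul_u2, mul_v0, mul_v1, mul_v2, pol,
        add_a, add_b, add_ui, add_vi, smul_a, smul_b, smul_ui, smul_vi, star_a, star_b,
        star_ui, star_vi]
    ring
  · simp only [mul_a, mul_b, mul_u0, mul_u1, mul_u2, mul_v0, mul_v1, mul_v2, pol,
        add_a, add_b, add_ui, add_vi, smul_a, smul_b, smul_ui, smul_vi, star_a, star_b,
        star_ui, star_vi]
    ring
  all_goals
    apply oct_ext <;>
      simp only [mul_a, mul_b, mul_u0, mul_u1, mul_u2, mul_v0, mul_v1, mul_v2, pol,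
        add_a, add_b, add_ui, add_vi, smul_a, smul_b, smul_ui, smul_vi, star_a, star_b,
        star_ui, star_vi, zero_a, zero_b, zero_ui, zero_vi] <;> ring

end Pool.Agent.Lib.MP_d38294_al
end

section

open Matrix

set_option linter.unusedSimpArgs false

namespace Pool.Agent.Lib.MP_d38294_al

open SplitOctonion

variable {F : Type*} [Field F]

/-- A Rota-Baxter operator on the Albert algebra with `R ^ 4 ≠ 0`. -/
def Rop : albert F →ₗ[F] albert F where
  toFun X := mkA (-(X.1 1 0).a + (X.1 2 1).a) ((X.1 2 1).a) 0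
    (SplitOctonion.mk (-(X.1 0 0).a - (X.1 1 1).a) 0 0 0)
    (SplitOctonion.mk 0 0 0 (-(X.1 0 1).a))
    (SplitOctonion.mk ((X.1 0 0).a) 0 0 ((X.1 2 0).a))
  map_add' X Y := by
    have h : ∀ i j, ((X + Y).1 i j).a = (X.1 i j).a + (Y.1 i j).a := fun _ _ => rfl
    rw [mkA_add]
    simp only [h]
    apply mkA_congr
    · ring
    · ring
    · ring
    all_goals
      apply oct_ext <;> simp only [add_a, add_b, add_ui, add_vi, mk_a, mk_b, mk_u, mk_v,
        Pi.zero_apply] <;> ring
  map_smul' c X := by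
    have h : ∀ i j, ((c • X).1 i j).a = c * (X.1 i j).a := fun _ _ => rfl
    rw [RingHom.id_apply, mkA_smul]
    simp only [h]
    apply mkA_congr
    · ring
    · ring
    · ring
    all_goals
      apply oct_ext <;> simp only [smul_a, smul_b, smul_ui, smul_vi, mk_a, mk_b, mk_u, mk_v,
        Pi.zero_apply] <;> ring

theorem Rop_mkA (r1 r2 r3 : F) (x y z : SplitOctonion F) :
    Rop (mkA r1 r2 r3 x y z) = mkA (-z.b + x.b) x.b 0 (SplitOctonion.mk (-r1 - r2) 0 0 0)
      (SplitOctonion.mk 0 0 0 (-z.a)) (SplitOctonion.mk r1 0 0 y.a) := by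
  show mkA (-(star z).a + (star x).a) ((star x).a) 0
    (SplitOctonion.mk (-(r1 • (1 : SplitOctonion F)).a - (r2 • (1 : SplitOctonion F)).a) 0 0 0)
    (SplitOctonion.mk 0 0 0 (-z.a))
    (SplitOctonion.mk ((r1 • (1 : SplitOctonion F)).a) 0 0 (y.a)) = _
  simp only [star_a, smul_a, one_a, mul_one]

theorem Rop_rb [CharZero F] (X Y : albert F) :
    jm (Rop X) (Rop Y) = Rop (jm (Rop X) Y + jm X (Rop Y)) := by
  obtain ⟨r1, r2, r3, x, y, z, rfl⟩ := mkA_surj X
  obtain ⟨s1, s2, s3, x', y', z', rfl⟩ := mkA_surj Y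
  simp only [Rop_mkA, jm_mkA, mkA_add]
  apply mkA_congr
  · simp only [mul_a, mul_b, mul_u0, mul_u1, mul_u2, mul_v0, mul_v1, mul_v2, pol,
        add_a, add_b, add_ui, add_vi, smul_a, smul_b, smul_ui, smul_vi, star_a, star_b,
        star_ui, star_vi, mk_a, mk_b, mk_u, mk_v, Pi.zero_apply]
    ring
  · simp only [mul_a, mul_b, mul_u0, mul_u1, mul_u2, mul_v0, mul_v1, mul_v2, pol,
        add_a, add_b, add_ui, add_vi, smul_a, smul_b, smul_ui, smul_vi, star_a, star_b,
        star_ui, star_vi, mk_a, mk_b, mk_u, mk_v, Pi.zero_apply]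
    ring
  · simp only [mul_a, mul_b, mul_u0, mul_u1, mul_u2, mul_v0, mul_v1, mul_v2, pol,
        add_a, add_b, add_ui, add_vi, smul_a, smul_b, smul_ui, smul_vi, star_a, star_b,
        star_ui, star_vi, mk_a, mk_b, mk_u, mk_v, Pi.zero_apply]
    ring
  all_goals
    apply oct_ext <;>
      simp only [mul_a, mul_b, mul_u0, mul_u1, mul_u2, mul_v0, mul_v1, mul_v2, pol,
        add_a, add_b, add_ui, add_vi, smul_a, smul_b, smul_ui, smul_vi, star_a, star_b,
        star_ui, star_vi, mk_a, mk_b, mk_u, mk_v, Pi.zero_apply] <;> ring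

theorem Rop_four : Rop (Rop (Rop (Rop (mkA 0 0 0 0 (SplitOctonion.mk 1 0 0 0) 0)))) =
    (mkA 0 0 0 0 (SplitOctonion.mk 0 0 0 1) 0 : albert F) := by
  simp only [Rop_mkA]
  apply mkA_congr
  all_goals
    first
      | (simp; done)
      | (apply oct_ext <;> simp)

theorem Rop_four_ne : (Rop : Module.End F (albert F)) ^ 4 ≠ 0 := by
  intro h
  have h1 := LinearMap.congr_fun h (mkA 0 0 0 0 (SplitOctonion.mk 1 0 0 0) 0)
  have h2 : ((Rop : Module.End F (albert F)) ^ 4) (mkA 0 0 0 0 (SplitOctonion.mk 1 0 0 0) 0) =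
    Rop (Rop (Rop (Rop (mkA 0 0 0 0 (SplitOctonion.mk 1 0 0 0) 0)))) := rfl
  rw [h2, Rop_four] at h1
  have h3 := congrArg (fun X : albert F => (X.1 2 0).b) h1
  have h4 : (1 : F) = 0 := h3
  exact one_ne_zero h4

end Pool.Agent.Lib.MP_d38294_al
end

section

namespace Pool.Agent.Lib.MP_d38294_al

variable {F A : Type*} [Field F] [CharZero F] [AddCommGroup A] [Module F A]

/-- Linearized cubic identity at an element with vanishing trace forms. -/
theorem lin_cubic
    (μ : A →ₗ[F] A →ₗ[F] A) (e : A) (T : A →ₗ[F] F)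
    (hcomm : ∀ x y, μ x y = μ y x) (hT1 : T e = 3)
    (hass : ∀ x y z, T (μ (μ x y) z) = T (μ x (μ y z)))
    (hcub : ∀ x, ∃ n : F, μ x (μ x x) - T x • μ x x + ((T x)^2 - T (μ x x)) • (2⁻¹ : F) • x = n • e)
    (a x : A) (ha : T a = 0) (hb : T (μ a a) = 0) :
    μ (μ a a) x + (2 : F) • μ a (μ a x) =
      T (μ (μ a a) x) • e + T (μ a x) • a + T x • μ a a := by
  obtain ⟨n1, h1⟩ := hcub (a + x)
  obtain ⟨n2, h2⟩ := hcub (a - x)
  obtain ⟨n3, h3⟩ := hcub x
  have hxa : μ x a = μ a x := hcomm x a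
  have h4 : μ x (μ a a) = μ (μ a a) x := hcomm _ _
  have h5 : μ a (μ x x) = μ (μ x x) a := hcomm _ _
  have key : μ (μ a a) x + (2 : F) • μ a (μ a x) - T (μ a x) • a - T x • μ a a =
     ((n1 - n2) / 2 - n3) • e := by
    have e1 : (2:F) • (μ (μ a a) x + (2 : F) • μ a (μ a x) - T (μ a x) • a - T x • μ a a) =
      (2:F) • (((n1 - n2) / 2 - n3) • e) := by
      have : (2:F) • (((n1 - n2) / 2 - n3) • e) = n1 • e - n2 • e - (2:F) • (n3 • e) := by
        module
      rw [this, ← h1, ← h2, ← h3]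
      simp only [map_add, map_sub, LinearMap.add_apply, LinearMap.sub_apply, hxa, h4, h5, ha, hb]
      module
    have h2 : (2:F) ≠ 0 := two_ne_zero
    have := congrArg (fun v => (2:F)⁻¹ • v) e1
    simpa [smul_smul] using this
  have tr := congrArg T key
  have hh : T (μ a (μ a x)) = T (μ (μ a a) x) := (hass a a x).symm
  simp only [map_add, map_sub, map_smul, ha, hb, hh, hT1, smul_eq_mul, mul_zero, sub_zero] at tr
  have hn : ((n1 - n2) / 2 - n3) = T (μ (μ a a) x) := by linear_combination (-1/3) * tr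
  rw [hn] at key
  rw [← key]; abel

/-- Trilinear cubic identity `(a, b, x)` when `ab = 0`, `b² = 0`. -/
theorem lin_cubic3
    (μ : A →ₗ[F] A →ₗ[F] A) (e : A) (T : A →ₗ[F] F)
    (hcomm : ∀ x y, μ x y = μ y x) (hT1 : T e = 3)
    (hass : ∀ x y z, T (μ (μ x y) z) = T (μ x (μ y z)))
    (hcub : ∀ x, ∃ n : F, μ x (μ x x) - T x • μ x x + ((T x)^2 - T (μ x x)) • (2⁻¹ : F) • x = n • e)
    (a b x : A) (ha : T a = 0) (hb : T b = 0) (haa : T (μ a a) = 0) (hab : μ a b = 0)
    (hbb : μ b b = 0) :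
    (2 : F) • (μ a (μ b x) + μ b (μ a x)) = T (μ b x) • a + T (μ a x) • b := by
  have hba : μ b a = 0 := by rw [hcomm, hab]
  have hsum : T (μ (a + b) (a + b)) = 0 := by
    simp [map_add, LinearMap.add_apply, haa, hab, hba, hbb]
  have h1 := lin_cubic μ e T hcomm hT1 hass hcub (a + b) x (by simp [ha, hb]) hsum
  have h2 := lin_cubic μ e T hcomm hT1 hass hcub a x ha haa
  have h3 := lin_cubic μ e T hcomm hT1 hass hcub b x hb (by simp [hbb])
  simp only [map_add, LinearMap.add_apply, hab, hba, hbb, add_zero, zero_add, map_zero,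
    LinearMap.zero_apply] at h1 h2 h3
  linear_combination (norm := module) h1 - h2 - h3

/-- The main operator computation. -/
theorem rb_pow_five
    (μ : A →ₗ[F] A →ₗ[F] A) (e : A) (T : A →ₗ[F] F)
    (hcomm : ∀ x y, μ x y = μ y x) (hone : ∀ x, μ e x = x) (hT1 : T e = 3)
    (hass : ∀ x y z, T (μ (μ x y) z) = T (μ x (μ y z)))
    (hcub : ∀ x, ∃ n : F, μ x (μ x x) - T x • μ x x + ((T x)^2 - T (μ x x)) • (2⁻¹ : F) • x = n • e)
    (R : A →ₗ[F] A) (hR : ∀ x y, μ (R x) (R y) = R (μ (R x) y + μ x (R y))) (x : A) :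
    R (R (R (R (R x)))) = 0 := by
  have hone' : ∀ x, μ x e = x := fun x => by rw [hcomm, hone]
  set a := R e with ha_def
  set b := μ a a with hb_def
  set c := μ a b with hc_def
  obtain ⟨n, hn⟩ := hcub a
  rw [← hb_def, ← hc_def] at hn
  have hRa : R a = (2⁻¹ : F) • b := by
    have h := hR e e
    rw [hone, hone', ← ha_def, ← hb_def, map_add] at h
    rw [h]; module
  have hRb : R b = (3⁻¹ : F) • c := by
    have h := hR e a
    rw [hone, ← ha_def, ← hb_def, map_add, hRa, map_smul, map_smul, ← hc_def] at h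
    have h3 : (3:F) ≠ 0 := three_ne_zero
    linear_combination (norm := module) (-(2:F)/3) • h
  have hRc : R c = (4⁻¹ : F) • μ a c := by
    have h := hR e b
    rw [hone, ← ha_def, ← hc_def, map_add, hRb, map_smul, map_smul] at h
    have h3 : (3:F) ≠ 0 := three_ne_zero
    linear_combination (norm := module) (-(3:F)/4) • h
  set t := T a with ht_def
  obtain ⟨s, hs⟩ : ∃ s : F, T b = t ^ 2 - 2 * s := ⟨(t ^ 2 - T b) / 2, by ring⟩
  have hc : c = t • b - s • a + n • e := by
    rw [hs] at hn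
    linear_combination (norm := module) hn
  have hE1 : (4⁻¹ : F) • μ a c - (t * 3⁻¹) • c + (s * 2⁻¹) • b = n • a := by
    have h := congrArg R hc
    rw [map_add, map_sub, map_smul, map_smul, map_smul, hRa, hRb, hRc, ← ha_def] at h
    linear_combination (norm := module) h
  have hE2 : μ a c = t • c - s • b + n • a := by
    have h := congrArg (μ a) hc
    rw [map_add, map_sub, map_smul, map_smul, map_smul, hone', ← hb_def, ← hc_def] at h
    exact h
  have hE4 : (t ^ 2 / 3 - s) • b + (3 * n - t * s / 3) • a + (t * n / 3) • e = 0 := by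
    rw [hE2, hc] at hE1
    linear_combination (norm := module) (-(4:F)) • hE1
  have hTc : T c = t * (t ^ 2 - 2 * s) - s * t + n * 3 := by
    rw [hc, map_add, map_sub, map_smul, map_smul, map_smul, hs, hT1]; simp [← ht_def]
  have hTac : T (μ a c) = t * T c - s * T b + n * t := by
    rw [hE2, map_add, map_sub, map_smul, map_smul, map_smul]; simp [← ht_def]
  have hba : μ b a = c := by rw [hcomm]
  have hTbb : T (μ b b) = T (μ a c) := by
    rw [hb_def, hass a a b]
  have P1 := congrArg T hE4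
  rw [map_add, map_add, map_smul, map_smul, map_smul, map_zero, hs, hT1, ← ht_def] at P1
  have P2 := congrArg (fun v => T (μ a v)) hE4
  simp only [map_add, map_smul, map_zero, hone', ← hb_def, ← hc_def, ← ht_def, hTc, hs] at P2
  have P3 := congrArg (fun v => T (μ b v)) hE4
  simp only [map_add, map_smul, map_zero, hone', hba, hTbb, hTac, hTc, hs] at P3
  simp only [smul_eq_mul] at P1 P2 P3
  have ht10 : t ^ 10 = 0 := by
    linear_combination
      (15063 / 2 * t ^ 6 - 120591 / 2 * t ^ 4 * s + 380187 / 2 * t ^ 2 * s ^ 2 - 244944 * s ^ 3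
        + 26973 / 2 * t ^ 3 * n + 64881 / 2 * t * s * n) * P1
      + (-3069 / 2 * t ^ 5 - 56727 * t ^ 3 * s + 197721 * t * s ^ 2 - 244944 * s * n) * P2
      + (-5994 * t ^ 4 + 103518 * t ^ 2 * s - 244944 * s ^ 2) * P3
  have ht0 : t = 0 := pow_eq_zero_iff (by norm_num) |>.mp ht10
  rw [ht0] at P1 P2 P3
  have hs0 : s = 0 := by
    have : s ^ 2 = 0 := by linear_combination (1/2) * P1
    exact pow_eq_zero_iff (by norm_num) |>.mp this
  rw [hs0] at P3
  have hn0 : n = 0 := by
    have : n ^ 2 = 0 := by linear_combination (1/9) * P3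
    exact pow_eq_zero_iff (by norm_num) |>.mp this
  have hc0 : c = 0 := by rw [hc, ht0, hs0, hn0]; simp
  have hTb0 : T b = 0 := by rw [hs, ht0, hs0]; simp
  have hTa0 : T a = 0 := ht0
  have hRb0 : R b = 0 := by rw [hRb, hc0, smul_zero]
  have hR2a : R (R a) = 0 := by rw [hRa, map_smul, hRb0, smul_zero]
  -- cubic identity at a
  have hA4 : ∀ y, μ b y + (2 : F) • μ a (μ a y) = T (μ b y) • e + T (μ a y) • a + T y • b := by
    intro y
    exact lin_cubic μ e T hcomm hT1 hass hcub a y hTa0 hTb0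
  have hbL : ∀ y, T (μ b (μ a y)) = 0 := by
    intro y
    rw [← hass b a y, hba, hc0, map_zero, LinearMap.zero_apply, map_zero]
  have hbb0 : μ b b = 0 := by
    have h := hA4 b
    rw [← hc_def, hc0, map_zero, map_zero, smul_zero, hTb0, hTbb, hc0, map_zero, map_zero] at h
    simpa using h
  have hML : ∀ y, (4 : F) • μ b (μ a y) = T (μ b y) • a + T (μ a y) • b := by
    intro y
    have h1 := hA4 (μ a y)
    have h2 := congrArg (μ a) (hA4 y)
    have h3 := lin_cubic3 μ e T hcomm hT1 hass hcub a b y hTa0 hTb0 hTb0 hc0 hbb0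
    have h4 : T (μ a (μ a y)) = T (μ b y) := by rw [hb_def, hass a a y]
    rw [hbL, h4] at h1
    simp only [map_add, map_smul, hone', ← hb_def, ← hc_def, hc0, smul_zero] at h2
    linear_combination (norm := module) (2 : F) • h1 - (2 : F) • h2 + h3
  -- Rota-Baxter relations
  have hA1 : ∀ y, μ a (R y) = R (μ a y) + R (R y) := by
    intro y
    have h := hR e y
    rw [hone, ← ha_def, map_add] at h
    exact h
  have hA2 : ∀ y, μ b (R y) = R (μ b y) + (2 : F) • R (μ a (R y)) := by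
    intro y
    have h := hR a y
    rw [hRa, map_smul, map_add] at h
    simp only [LinearMap.smul_apply, map_smul] at h
    linear_combination (norm := module) (2 : F) • h
  have hA3 : ∀ y, R (μ b (R y)) = 0 := by
    intro y
    have h := hR b y
    rw [hRb0, map_add] at h
    simp only [map_zero, LinearMap.zero_apply, zero_add] at h
    exact h.symm
  have hB2 : ∀ y, R (R (μ b y)) = -(2 : F) • R (R (R (μ a y))) - (2 : F) • R (R (R (R y))) := by
    intro y
    have h := congrArg R (hA2 y)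
    rw [hA3, map_add, map_smul, hA1, map_add, map_add] at h
    linear_combination (norm := module) (-1 : F) • h
  have hB3 : ∀ y, R (R (R (R (μ a y)))) = -(2 : F) • R (R (R (R (R y)))) := by
    intro y
    have h := hB2 (R y)
    rw [hA3, map_zero, hA1] at h
    simp only [map_add] at h
    linear_combination (norm := module) ((1:F)/2) • h
  have hB4 : ∀ y, (2 : F) • R (R (μ a (μ a y))) =
      (T (μ b y) * 2⁻¹) • b + (2 : F) • R (R (R (μ a y))) + (2 : F) • R (R (R (R y))) := by
    intro y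
    have h := congrArg (fun v => R (R v)) (hA4 y)
    simp only [map_add, map_smul, hB2, ← ha_def, hRa, hRb0, map_zero, smul_zero] at h
    linear_combination (norm := module) h
  have hB5 : ∀ y, R (R (R (μ a (μ a y)))) = - R (R (R (R (R y)))) := by
    intro y
    have h := congrArg R (hB4 y)
    simp only [map_add, map_smul, hRb0, smul_zero, hB3] at h
    linear_combination (norm := module) (2⁻¹ : F) • h
  have hfin := hB2 (μ a x)
  rw [hB5, hB3] at hfin
  have h4 := congrArg (fun v => R (R v)) (hML x)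
  simp only [map_add, map_smul, hRb0, hR2a, smul_zero, add_zero] at h4
  rw [hfin] at h4
  have h24 : (24 : F) ≠ 0 := by norm_num
  have h5 : (24 : F) • R (R (R (R (R x)))) = 0 := by
    linear_combination (norm := module) h4
  exact (smul_eq_zero.mp h5).resolve_left h24

end Pool.Agent.Lib.MP_d38294_al
end
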